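import Pool.Agent.P8H10.TW.Stm

/-!
# Project TW, package LGN (helper34): the logarithm near one
-/

set_option autoImplicit false

namespace Pool.Agent.P8H34.TW

open Pool.Agent.P8H10.TW Filter

theorem inv_le_norm (p : ℕ) [Fact p.Prime] (n : ℕ) (hn : n ≠ 0) :
    ((n : ℝ))⁻¹ ≤ ‖(n : PadicAlgCl p)‖ := by
  have h1 : ‖(n : PadicAlgCl p)‖ = ‖(n : ℚ_[p])‖ := by
    rw [← PadicAlgCl.norm_extends p (n : ℚ_[p])]
    simp
  have h2 : ‖(n : ℚ_[p])‖ = ((padicNorm p (n : ℚ) : ℚ) : ℝ) := by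
    rw [← Padic.eq_padicNorm]
    simp
  have h3 : padicValRat p (n : ℚ) = (padicValNat p n : ℤ) := padicValRat.of_nat
  rw [h1, h2, padicNorm.eq_zpow_of_nonzero (by exact_mod_cast hn), Rat.cast_zpow,
    Rat.cast_natCast, h3, zpow_neg, zpow_natCast]
  have hp0 : (0 : ℝ) < p := by exact_mod_cast (Fact.out : p.Prime).pos
  have hle : ((p : ℝ)) ^ padicValNat p n ≤ n := by
    exact_mod_cast Nat.le_of_dvd (Nat.pos_of_ne_zero hn) pow_padicValNat_dvd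
  exact inv_anti₀ (pow_pos hp0 _) hle

/-- **LGN**. -/
theorem lgn : S_LGN := by
  intro p hp L hL z hz0 hz
  have hp2 : (2 : ℝ) ≤ p := by exact_mod_cast hp.out.two_le
  have hp0 : (0 : ℝ) < p := by linarith
  have hzn : 0 < ‖z‖ := norm_pos_iff.2 hz0
  have hc : p * ‖z‖ < 1 := by
    rw [lt_div_iff₀ hp0] at hz
    linarith [mul_comm (p : ℝ) ‖z‖]
  have hz1 : ‖z‖ < 1 := by nlinarith
  have hs := hL z hz1
  have hs1 := (hasSum_nat_add_iff' 1).2 hs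
  simp only [Finset.sum_range_one, pow_zero, zero_add, pow_one, Nat.cast_zero, one_mul,
    div_one] at hs1
  have hterm : ∀ n : ℕ, ‖(-1 : PadicAlgCl p) ^ (n + 1) * z ^ (n + 1 + 1) /
      (((n + 1 : ℕ) : PadicAlgCl p) + 1)‖ ≤ (p * ‖z‖) * ‖z‖ := by
    intro n
    rw [norm_div, norm_mul, norm_pow, norm_neg, norm_one, one_pow, one_mul, norm_pow]
    have h1 : ((n + 1 : ℕ) : PadicAlgCl p) + 1 = ((n + 2 : ℕ) : PadicAlgCl p) := by
      push_cast; ring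
    rw [h1]
    have h2 := inv_le_norm p (n + 2) (by omega)
    have hpos : (0 : ℝ) < ((n + 2 : ℕ) : ℝ) := by positivity
    have h3 : 0 < ‖((n + 2 : ℕ) : PadicAlgCl p)‖ := lt_of_lt_of_le (inv_pos.2 hpos) h2
    rw [div_le_iff₀ h3]
    have h4 : ‖z‖ ^ (n + 1 + 1) ≤ p * ‖z‖ * ‖z‖ * (((n + 2 : ℕ) : ℝ))⁻¹ := by
      rw [← div_eq_mul_inv, le_div_iff₀ hpos]
      have h5 : ((n + 2 : ℕ) : ℝ) ≤ (p : ℝ) ^ (n + 1) := by
        have h6 : n + 2 ≤ 2 ^ (n + 1) := by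
          have := Nat.lt_two_pow_self (n := n + 1)
          omega
        calc ((n + 2 : ℕ) : ℝ) ≤ ((2 ^ (n + 1) : ℕ) : ℝ) := by exact_mod_cast h6
          _ = (2 : ℝ) ^ (n + 1) := by push_cast; ring
          _ ≤ (p : ℝ) ^ (n + 1) := pow_le_pow_left₀ (by norm_num) hp2 _
      calc ‖z‖ ^ (n + 1 + 1) * ((n + 2 : ℕ) : ℝ)
          ≤ ‖z‖ ^ (n + 1 + 1) * (p : ℝ) ^ (n + 1) :=
            mul_le_mul_of_nonneg_left h5 (by positivity)
        _ = ‖z‖ * ((p : ℝ) * ‖z‖) ^ (n + 1) := by ring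
        _ ≤ ‖z‖ * ((p : ℝ) * ‖z‖) := by
            refine mul_le_mul_of_nonneg_left ?_ hzn.le
            calc ((p : ℝ) * ‖z‖) ^ (n + 1) = ((p : ℝ) * ‖z‖) ^ n * ((p : ℝ) * ‖z‖) := pow_succ _ _
              _ ≤ 1 * ((p : ℝ) * ‖z‖) := mul_le_mul_of_nonneg_right
                  (pow_le_one₀ (by positivity) hc.le) (by positivity)
              _ = (p : ℝ) * ‖z‖ := one_mul _
        _ = p * ‖z‖ * ‖z‖ := by ring
    exact h4.trans (mul_le_mul_of_nonneg_left h2 (by positivity))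
  have hle : ‖L (1 + z) - z‖ ≤ (p * ‖z‖) * ‖z‖ := by
    refine le_of_tendsto (Tendsto.norm hs1) (Eventually.of_forall fun s => ?_)
    exact IsUltrametricDist.norm_sum_le_of_forall_le_of_nonneg (by positivity)
      fun n _ => hterm n
  refine hle.trans_lt ?_
  nlinarith

end Pool.Agent.P8H34.TW
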